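import Pool.Agent.Helper29_DE.KoszulLoc

/-!
# CMPROJ
-/

open CategoryTheory TensorProduct

noncomputable section

namespace Pool.Agent.H29DE

open Pool.Agent.H66DE

section

variable {R : Type} [CommRing R]

theorem krel_localization (r : Fin 3 → R) (X : Type) [AddCommGroup X] [Module R X]
    (h : KRel r X) (T : Submonoid R) :
    KRel (fun j => algebraMap R (Localization T) (r j)) (LocalizedModule T X) := by
  intro x hx
  obtain ⟨b, hb⟩ := IsLocalizedModule.exist_integer_multiples_of_finite T
    (LocalizedModule.mkLinearMap T X) x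
  choose m hm using hb
  have hm' : ∀ j, (b : R) • x j = LocalizedModule.mkLinearMap T X (m j) := fun j => (hm j).symm
  have hzero : LocalizedModule.mkLinearMap T X (r 0 • m 0 + r 1 • m 1 + r 2 • m 2) = 0 := by
    rw [map_add, map_add, map_smul, map_smul, map_smul, ← hm', ← hm', ← hm',
      smul_comm (r 0), smul_comm (r 1), smul_comm (r 2), ← smul_add, ← smul_add]
    have : r 0 • x 0 + r 1 • x 1 + r 2 • x 2 = 0 := by
      simp only [algebraMap_smul] at hx
      exact hx
    rw [this, smul_zero]
  obtain ⟨t, ht⟩ := (IsLocalizedModule.eq_zero_iff T (LocalizedModule.mkLinearMap T X)).1 hzero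
  obtain ⟨P, h0, h1, h2⟩ := h (fun j => (t : R) • m j) (by
    rw [smul_comm (r 0), smul_comm (r 1), smul_comm (r 2), ← smul_add, ← smul_add]
    exact ht)
  have hu : Function.Injective (fun y : LocalizedModule T X => ((t * b : T) : R) • y) := by
    have := (Module.End.isUnit_iff _).1
      (IsLocalizedModule.map_units (LocalizedModule.mkLinearMap T X) (t * b))
    exact this.1
  have hmk : ∀ (p : X), ((t * b : T) : R) •
      LocalizedModule.mk p (t * b) = LocalizedModule.mkLinearMap T X p := by
    intro p
    change ((t * b : T) : R) • LocalizedModule.mk p (t * b) = LocalizedModule.mk p 1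
    rw [LocalizedModule.smul'_mk, LocalizedModule.mk_eq]
    exact ⟨1, by simp [Submonoid.smul_def]⟩
  have hx' : ∀ j, ((t * b : T) : R) • x j = LocalizedModule.mkLinearMap T X ((t : R) • m j) := by
    intro j
    rw [Submonoid.coe_mul, mul_smul, hm', map_smul]
  have hkey : ∀ (y : LocalizedModule T X) (a c : R) (p q : X),
      ((t * b : T) : R) • y = LocalizedModule.mkLinearMap T X (a • p - c • q) →
      y = algebraMap R (Localization T) a • LocalizedModule.mk p (t * b) -
        algebraMap R (Localization T) c • LocalizedModule.mk q (t * b) := by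
    intro y a c p q hy
    apply hu
    change ((t * b : T) : R) • y = ((t * b : T) : R) • _
    rw [hy, map_sub, map_smul, map_smul, ← hmk p, ← hmk q]
    simp only [algebraMap_smul]
    rw [smul_sub, smul_comm a, smul_comm c]
  refine ⟨fun j => LocalizedModule.mk (P j) (t * b), ?_, ?_, ?_⟩
  · exact hkey _ _ _ _ _ (by rw [hx', h0])
  · exact hkey _ _ _ _ _ (by rw [hx', h1])
  · exact hkey _ _ _ _ _ (by rw [hx', h2])

end

open MvPolynomial in
theorem wr3_X_sub (c : Fin 3 → ℂ) : WR3 (fun j : Fin 3 => (X j - C (c j) : S)) S := by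
  have hne : ∀ j, (X j - C (c j) : S) ≠ 0 := by
    intro j h
    have := congrArg (fun p => MvPolynomial.eval (fun _ => c j + 1) p) h
    simp at this
  have key : ∀ (ψ : S →ₐ[ℂ] S) (I : Ideal S), (∀ j, X j - ψ (X j) ∈ I) →
      ∀ e, e - ψ e ∈ I := by
    intro ψ I h e
    have : (Ideal.Quotient.mkₐ ℂ I) = (Ideal.Quotient.mkₐ ℂ I).comp ψ := by
      apply MvPolynomial.algHom_ext
      intro j
      exact Ideal.Quotient.eq.2 (h j)
    exact Ideal.Quotient.eq.1 (congrArg (fun l => l e) this)
  refine ⟨?_, ?_, ?_⟩
  · intro e he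
    rcases mul_eq_zero.1 he with h | h
    · exact absurd h (hne 0)
    · exact h
  · intro e e' he
    simp only [smul_eq_mul] at he
    set ψ : S →ₐ[ℂ] S := aeval ![C (c 0), X 1, X 2] with hψ
    have h0 : ψ (X 0 - C (c 0)) = 0 := by simp [hψ]
    have h1 : ψ (X 1 - C (c 1)) = X 1 - C (c 1) := by simp [hψ]
    have h2 : ψ e = 0 := by
      have := congrArg ψ he
      rw [map_mul, map_mul, h0, h1, zero_mul] at this
      exact (mul_eq_zero.1 this).resolve_left (hne 1)
    have h3 := key ψ (Ideal.span {X 0 - C (c 0)}) (by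
      intro j
      fin_cases j
      · simpa [hψ] using Ideal.mem_span_singleton_self (X 0 - C (c 0) : S)
      · simp [hψ]
      · simp [hψ]) e
    rw [h2, sub_zero, Ideal.mem_span_singleton] at h3
    exact h3
  · intro e e' e'' he
    simp only [smul_eq_mul] at he
    set ψ : S →ₐ[ℂ] S := aeval ![C (c 0), C (c 1), X 2] with hψ
    have h0 : ψ (X 0 - C (c 0)) = 0 := by simp [hψ]
    have h1 : ψ (X 1 - C (c 1)) = 0 := by simp [hψ]
    have h2 : ψ (X 2 - C (c 2)) = X 2 - C (c 2) := by simp [hψ]
    have h3 : ψ e = 0 := by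
      have := congrArg ψ he
      rw [map_add, map_mul, map_mul, map_mul, h0, h1, h2, zero_mul, zero_mul, add_zero] at this
      exact (mul_eq_zero.1 this).resolve_left (hne 2)
    have h4 := key ψ (Ideal.span {X 0 - C (c 0), X 1 - C (c 1)}) (by
      intro j
      fin_cases j
      · simpa [hψ] using Ideal.subset_span (Set.mem_insert (X 0 - C (c 0) : S) _)
      · simpa [hψ] using Ideal.subset_span
          (Set.mem_insert_of_mem _ (Set.mem_singleton (X 1 - C (c 1) : S)))
      · simp [hψ]) e
    rw [h3, sub_zero, Ideal.mem_span_pair] at h4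
    obtain ⟨a, b, hab⟩ := h4
    exact ⟨a, b, by simp only [smul_eq_mul]; rw [← hab]; ring⟩

theorem fR_monic : fR.Monic := by
  unfold fR
  exact Polynomial.monic_X_pow_add_C _ (by norm_num)

instance : Module.Free S R0 := fR_monic.free_adjoinRoot
instance : Module.Finite S R0 := fR_monic.finite_adjoinRoot
instance : IsNoetherianRing R0 := IsNoetherianRing.of_finite S R0

theorem vanishing_eq (c : Fin 3 → ℂ) :
    MvPolynomial.vanishingIdeal ℂ {c} =
      Ideal.span (Set.range fun j : Fin 3 => (MvPolynomial.X j - MvPolynomial.C (c j) : S)) := by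
  set I := Ideal.span (Set.range fun j : Fin 3 => (MvPolynomial.X j - MvPolynomial.C (c j) : S))
    with hI
  apply le_antisymm
  · intro f hf
    have h1 : MvPolynomial.eval c f = 0 := by
      have := hf c (Set.mem_singleton _)
      simpa using this
    have : (Ideal.Quotient.mkₐ ℂ I) =
        ((Algebra.ofId ℂ (S ⧸ I))).comp (MvPolynomial.aeval c : S →ₐ[ℂ] ℂ) := by
      apply MvPolynomial.algHom_ext
      intro j
      simp only [Ideal.Quotient.mkₐ_eq_mk, AlgHom.comp_apply, MvPolynomial.aeval_X]
      have : Ideal.Quotient.mk I (MvPolynomial.X j) =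
          Ideal.Quotient.mk I (MvPolynomial.C (c j)) :=
        Ideal.Quotient.eq.2 (Ideal.subset_span ⟨j, rfl⟩)
      rw [this]
      rfl
    have h2 := congrArg (fun l => l f) this
    simp only [Ideal.Quotient.mkₐ_eq_mk, AlgHom.comp_apply] at h2
    have h3 : (MvPolynomial.aeval c : S →ₐ[ℂ] ℂ) f = 0 := h1
    rw [h3, map_zero, Ideal.Quotient.eq_zero_iff_mem] at h2
    exact h2
  · rw [hI, Ideal.span_le]
    rintro _ ⟨j, rfl⟩ x hx
    rw [Set.mem_singleton_iff.1 hx]
    simp

theorem cmproj : CMProjStatement := by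
  intro X _ _ _ _ hmax hX
  obtain ⟨hfin, hext⟩ := hX
  have hfinS : Module.Finite S X := Module.Finite.trans R0 X
  have hfp : Module.FinitePresentation S X := Module.finitePresentation_of_finite S X
  apply Module.projective_of_localization_maximal
  intro n hn
  obtain ⟨c, hc⟩ := MvPolynomial.isMaximal_iff_eq_vanishingIdeal_singleton.1 hn
  have hn' := hc.trans (vanishing_eq c)
  set r : Fin 3 → S := fun j => (MvPolynomial.X j - MvPolynomial.C (c j) : S) with hr
  have hwS : WR3 r S := wr3_X_sub c
  have hwR' : WR3 r R0 := hwS.projective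
  set r' : Fin 3 → R0 := fun j => algebraMap S R0 (r j) with hr'
  have hwR : WR3 r' R0 := by
    refine ⟨fun e he => hwR'.r0 e ?_, fun e e' he => ?_, fun e e' e'' he => ?_⟩
    · rw [Algebra.smul_def]; exact he
    · obtain ⟨f, hf⟩ := hwR'.r1 e e' (by rw [Algebra.smul_def, Algebra.smul_def]; exact he)
      exact ⟨f, by rw [hf, Algebra.smul_def]; rfl⟩
    · obtain ⟨f, f', hf⟩ := hwR'.r2 e e' e'' (by
        rw [Algebra.smul_def, Algebra.smul_def, Algebra.smul_def]; exact he)
      exact ⟨f, f', by rw [hf, Algebra.smul_def, Algebra.smul_def]; rfl⟩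
  have hJ : ∀ p : Ideal R0, p.IsPrime → Ideal.span (Set.range r') ≤ p → p.IsMaximal := by
    intro p hp hle
    have hint : Algebra.IsIntegral S R0 := inferInstance
    apply Ideal.isMaximal_of_isIntegral_of_isMaximal_comap (R := S)
    have h1 : n ≤ Ideal.comap (algebraMap S R0) p := by
      rw [hn', Ideal.span_le]
      rintro _ ⟨j, rfl⟩
      exact hle (Ideal.subset_span ⟨j, rfl⟩)
    have h2 : Ideal.comap (algebraMap S R0) p ≠ ⊤ := by
      intro h
      exact hp.ne_top (Ideal.comap_eq_top_iff.1 h)
    rw [← hn.eq_of_le h2 h1]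
    exact hn
  have h2 : Subsingleton (Abelian.Ext (ModuleCat.of R0 (R0 ⧸ Ideal.span (Set.range r')))
      (ModuleCat.of R0 X) 2) := by
    apply ext_of_killed (Ideal.span (Set.range r')) hJ (ModuleCat.of R0 X) 2
      (fun m hm => hext m hm 2 (by rw [hmax m hm]; norm_num))
    · infer_instance
    · intro a ha x
      obtain ⟨y, rfl⟩ := Ideal.Quotient.mk_surjective x
      change (Submodule.Quotient.mk (a • y) : R0 ⧸ _) = 0
      rw [Submodule.Quotient.mk_eq_zero]
      exact Ideal.mul_mem_right _ _ ha
  have hk' : KRel r' X := krel_of_ext r' hwR X h2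
  have hk : KRel r X := by
    intro m hm
    have hsm : ∀ (j : Fin 3) (x : X), r j • x = r' j • x := fun j x => by
      rw [hr']; exact (algebraMap_smul R0 (r j) x).symm
    obtain ⟨P, h⟩ := hk' m (by rw [← hsm, ← hsm, ← hsm]; exact hm)
    exact ⟨P, by simpa only [hsm] using h⟩
  have hkl := krel_localization r X hk n.primeCompl
  have hfpl : Module.FinitePresentation (Localization.AtPrime n)
      (LocalizedModule n.primeCompl X) := by
    have : Module.Finite (Localization.AtPrime n) (LocalizedModule n.primeCompl X) := inferInstance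
    have : IsNoetherianRing (Localization.AtPrime n) := inferInstance
    exact Module.finitePresentation_of_finite _ _
  have hfree := free_of_krel (R := Localization.AtPrime n)
    (fun j => algebraMap S (Localization.AtPrime n) (r j)) (by
      have h3 := congrArg (Ideal.map (algebraMap S (Localization.AtPrime n))) hn'
      rw [← Localization.AtPrime.map_eq_maximalIdeal, h3, Ideal.map_span, ← Set.range_comp]
      rfl) (LocalizedModule n.primeCompl X) hkl
  infer_instance

end Pool.Agent.H29DE
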