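import Pool.Agent.Helper29_DE.Koszul

/-!
# Ext vanishing for modules of finite length and the Koszul relations
-/

open CategoryTheory

noncomputable section

namespace Pool.Agent.H29DE

open Pool.Agent.H66DE

section

variable {R : Type} [CommRing R]

theorem ext_isoSub {M N : Type} [AddCommGroup M] [Module R M] [AddCommGroup N] [Module R N]
    (e : M ≃ₗ[R] N) (X : ModuleCat.{0} R) (i : ℕ)
    (h : Subsingleton (Abelian.Ext (ModuleCat.of R M) X i)) :
    Subsingleton (Abelian.Ext (ModuleCat.of R N) X i) := by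
  refine ⟨fun a b => ?_⟩
  have key : ∀ a : Abelian.Ext (ModuleCat.of R N) X i, a = 0 := by
    intro a
    have h1 : (Abelian.Ext.mk₀ (e.toModuleIso.hom)).comp a (zero_add i) = 0 := h.elim _ _
    have h2 : (Abelian.Ext.mk₀ (e.toModuleIso.inv)).comp
        ((Abelian.Ext.mk₀ (e.toModuleIso.hom)).comp a (zero_add i)) (zero_add i) = a := by
      rw [← Abelian.Ext.comp_assoc_of_second_deg_zero, Abelian.Ext.mk₀_comp_mk₀, Iso.inv_hom_id,
        Abelian.Ext.mk₀_id_comp]
    rw [← h2, h1, Abelian.Ext.comp_zero]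
  rw [key a, key b]

theorem ext_exact {N₁ N₂ N₃ : Type} [AddCommGroup N₁] [Module R N₁] [AddCommGroup N₂]
    [Module R N₂] [AddCommGroup N₃] [Module R N₃] (f : N₁ →ₗ[R] N₂) (g : N₂ →ₗ[R] N₃)
    (hf : Function.Injective f) (hg : Function.Surjective g) (hfg : Function.Exact f g)
    (X : ModuleCat.{0} R) (i : ℕ)
    (h1 : Subsingleton (Abelian.Ext (ModuleCat.of R N₁) X i))
    (h3 : Subsingleton (Abelian.Ext (ModuleCat.of R N₃) X i)) :
    Subsingleton (Abelian.Ext (ModuleCat.of R N₂) X i) := by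
  have hS := ModuleCat.shortComplex_shortExact
    (ModuleCat.shortComplexOfCompEqZero f g hfg.linearMap_comp_eq_zero) hfg hf hg
  have key : ∀ a : Abelian.Ext (ModuleCat.of R N₂) X i, a = 0 := by
    intro a
    obtain ⟨b, hb⟩ := Abelian.Ext.contravariant_sequence_exact₂ hS X a (h1.elim _ _)
    rw [← hb]
    have : b = 0 := h3.elim _ _
    rw [this, Abelian.Ext.comp_zero]
  exact ⟨fun a b => by rw [key a, key b]⟩

theorem ext_of_killed [IsNoetherianRing R] (J : Ideal R)
    (hJ : ∀ p : Ideal R, p.IsPrime → J ≤ p → p.IsMaximal) (X : ModuleCat.{0} R) (i : ℕ)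
    (hX : ∀ m : Ideal R, m.IsMaximal → Subsingleton (Abelian.Ext (ModuleCat.of R (R ⧸ m)) X i))
    (N : Type) [AddCommGroup N] [Module R N] (hN : Module.Finite R N) :
    (∀ r ∈ J, ∀ x : N, r • x = 0) → Subsingleton (Abelian.Ext (ModuleCat.of R N) X i) := by
  induction hN using IsNoetherianRing.induction_on_isQuotientEquivQuotientPrime R with
  | subsingleton N =>
    intro _
    have hz : Limits.IsZero (ModuleCat.of R N) := ModuleCat.isZero_of_subsingleton _
    refine ⟨fun a b => ?_⟩
    have key : ∀ a : Abelian.Ext (ModuleCat.of R N) X i, a = 0 := by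
      intro a
      rw [← Abelian.Ext.mk₀_id_comp a, hz.eq_of_src (𝟙 _) 0, Abelian.Ext.mk₀_zero,
        Abelian.Ext.zero_comp]
    rw [key a, key b]
  | quotient N p f =>
    intro h
    have hp : J ≤ p.1 := by
      intro r hr
      have h1 := h r hr (f.symm 1)
      rw [← map_smul, LinearEquiv.map_eq_zero_iff] at h1
      have h2 : (r • (1 : R ⧸ p.1)) = Ideal.Quotient.mk p.1 r := by
        rw [Algebra.smul_def, mul_one]; rfl
      rw [h2, Ideal.Quotient.eq_zero_iff_mem] at h1
      exact h1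
    exact ext_isoSub f.symm X i (hX p.1 (hJ p.1 p.2 hp))
  | exact N₁ N₂ N₃ f g hf hg hfg h₁ h₃ =>
    intro h
    refine ext_exact f g hf hg hfg X i (h₁ fun r hr x => ?_) (h₃ fun r hr x => ?_)
    · apply hf; rw [map_smul, h r hr, map_zero]
    · obtain ⟨y, rfl⟩ := hg x
      rw [← map_smul, h r hr, map_zero]

/-- extension of homomorphisms -/
theorem exists_extend {A B C : Type} [AddCommGroup A] [Module R A] [AddCommGroup B]
    [Module R B] [AddCommGroup C] [Module R C] (f : A →ₗ[R] B) (g : B →ₗ[R] C)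
    (hf : Function.Injective f) (hg : Function.Surjective g) (hfg : Function.Exact f g)
    (X : Type) [AddCommGroup X] [Module R X]
    (h : Subsingleton (Abelian.Ext (ModuleCat.of R C) (ModuleCat.of R X) 1)) (a : A →ₗ[R] X) :
    ∃ b : B →ₗ[R] X, ∀ x, b (f x) = a x := by
  have hS := ModuleCat.shortComplex_shortExact
    (ModuleCat.shortComplexOfCompEqZero f g hfg.linearMap_comp_eq_zero) hfg hf hg
  obtain ⟨b, hb⟩ := Abelian.Ext.contravariant_sequence_exact₁ hS (ModuleCat.of R X)
    (Abelian.Ext.mk₀ (ModuleCat.ofHom a)) (n₁ := 1) rfl (h.elim _ _)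
  obtain ⟨b', rfl⟩ := (Abelian.Ext.mk₀_bijective _ _).2 b
  rw [Abelian.Ext.mk₀_comp_mk₀] at hb
  have h2 := (Abelian.Ext.mk₀_bijective _ _).1 hb
  refine ⟨b'.hom, fun x => ?_⟩
  have h3 := congrArg (fun l => l.hom x) h2
  exact h3

theorem ext_one_ideal (J : Ideal R) (X : ModuleCat.{0} R)
    (h : Subsingleton (Abelian.Ext (ModuleCat.of R (R ⧸ J)) X 2)) :
    Subsingleton (Abelian.Ext (ModuleCat.of R J) X 1) := by
  have hex : Function.Exact (J.subtype : J →ₗ[R] R) (J.mkQ) := LinearMap.exact_subtype_mkQ _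
  have hS := ModuleCat.shortComplex_shortExact
    (ModuleCat.shortComplexOfCompEqZero (J.subtype : J →ₗ[R] R) J.mkQ
      hex.linearMap_comp_eq_zero) hex Subtype.val_injective (Submodule.mkQ_surjective _)
  have key : ∀ a : Abelian.Ext (ModuleCat.of R J) X 1, a = 0 := by
    intro a
    obtain ⟨b, hb⟩ := Abelian.Ext.contravariant_sequence_exact₁ hS X a (n₁ := 2) rfl (h.elim _ _)
    have : Projective (ModuleCat.of R R) := ModuleCat.projective_of_free (Module.Basis.singleton Unit R)
    have hb0 : b = 0 := Abelian.Ext.eq_zero_of_projective b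
    rw [← hb, hb0, Abelian.Ext.comp_zero]
  exact ⟨fun a b => by rw [key a, key b]⟩

end

end Pool.Agent.H29DE
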