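import Pool.Agent.Helper66_DE.Statements

/-!
# Elementwise weakly regular sequences of length three on projective modules
-/

noncomputable section

namespace Pool.Agent.H29DE

open Pool.Agent.H66DE

/-- elementwise weakly regular sequences of length three -/
structure WR3 {A : Type} [CommRing A] (r : Fin 3 → A) (E : Type) [AddCommGroup E] [Module A E] :
    Prop where
  r0 : ∀ e : E, r 0 • e = 0 → e = 0
  r1 : ∀ e e' : E, r 1 • e = r 0 • e' → ∃ f : E, e = r 0 • f
  r2 : ∀ e e' e'' : E, r 2 • e = r 0 • e' + r 1 • e'' → ∃ f f' : E, e = r 0 • f + r 1 • f'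

section
variable {A : Type} [CommRing A] {r : Fin 3 → A} {E : Type} [AddCommGroup E] [Module A E]

/-- Koszul exactness in degree one. -/
theorem WR3.koszul1 (h : WR3 r E) (v : Fin 3 → E) (h01 : r 1 • v 0 = r 0 • v 1)
    (h02 : r 2 • v 0 = r 0 • v 2) : ∃ k : E, ∀ j, v j = r j • k := by
  obtain ⟨k, hk⟩ := h.r1 _ _ h01
  refine ⟨k, ?_⟩
  have h1 : v 1 = r 1 • k := by
    have : r 0 • (v 1 - r 1 • k) = 0 := by
      rw [smul_sub, ← h01, hk, smul_comm, sub_self]
    exact sub_eq_zero.1 (h.r0 _ this)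
  have h2 : v 2 = r 2 • k := by
    have : r 0 • (v 2 - r 2 • k) = 0 := by
      rw [smul_sub, ← h02, hk, smul_comm, sub_self]
    exact sub_eq_zero.1 (h.r0 _ this)
  intro j
  fin_cases j
  · exact hk
  · exact h1
  · exact h2

/-- Koszul exactness in degree two. -/
theorem WR3.koszul2 (h : WR3 r E) (e01 e12 e20 : E)
    (hs : r 0 • e12 + r 1 • e20 + r 2 • e01 = 0) : ∃ α : Fin 3 → E,
      e01 = r 1 • α 0 - r 0 • α 1 ∧ e12 = r 2 • α 1 - r 1 • α 2 ∧ e20 = r 0 • α 2 - r 2 • α 0 := by
  obtain ⟨f, f', hf⟩ := h.r2 e01 (-e12) (-e20) (by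
    rw [smul_neg, smul_neg]; rw [← sub_eq_zero, ← hs]; abel)
  have h1 : r 1 • (e20 + r 2 • f') = r 0 • (-(e12 + r 2 • f)) := by
    rw [← sub_eq_zero, ← hs, hf]
    simp only [smul_add, smul_neg, smul_smul]
    rw [mul_comm (r 2) (r 0), mul_comm (r 2) (r 1)]; abel
  obtain ⟨g, hg⟩ := h.r1 _ _ h1
  have h2 : e12 + r 2 • f + r 1 • g = 0 := by
    apply h.r0
    rw [hg, smul_comm] at h1
    rw [smul_add, h1, smul_neg, add_neg_cancel]
  refine ⟨![f', -f, g], ?_, ?_, ?_⟩
  · simp only [Matrix.cons_val_zero, Matrix.cons_val_one, smul_neg, sub_neg_eq_add]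
    rw [hf, add_comm]
  · simp only [Matrix.cons_val_one, Matrix.cons_val, smul_neg]
    rw [← sub_eq_zero, ← h2]; abel
  · simp only [Matrix.cons_val_zero, Matrix.cons_val]
    rw [← hg]; abel

theorem WR3.of_retract {F : Type} [AddCommGroup F] [Module A F] (h : WR3 r F)
    (i : E →ₗ[A] F) (p : F →ₗ[A] E) (hpi : ∀ e, p (i e) = e) : WR3 r E where
  r0 e he := by
    rw [← hpi e, h.r0 (i e) (by rw [← map_smul, he, map_zero]), map_zero]
  r1 e e' he := by
    obtain ⟨f, hf⟩ := h.r1 (i e) (i e') (by rw [← map_smul, he, map_smul])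
    exact ⟨p f, by rw [← hpi e, hf, map_smul]⟩
  r2 e e' e'' he := by
    obtain ⟨f, f', hf⟩ := h.r2 (i e) (i e') (i e'') (by rw [← map_smul, he, map_add, map_smul, map_smul])
    exact ⟨p f, p f', by rw [← hpi e, hf, map_add, map_smul, map_smul]⟩

theorem WR3.finsupp (h : WR3 r A) (ι : Type) : WR3 r (ι →₀ A) where
  r0 e he := by
    ext i
    exact h.r0 _ (by rw [← Finsupp.smul_apply, he]; rfl)
  r1 e e' he := by
    classical
    have : ∀ i, ∃ f : A, e i = r 0 • f ∧ (e i = 0 → f = 0) := by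
      intro i
      by_cases h0 : e i = 0
      · exact ⟨0, by rw [h0, smul_zero], fun _ => rfl⟩
      · obtain ⟨f, hf⟩ := h.r1 (e i) (e' i) (by
          rw [← Finsupp.smul_apply, he, Finsupp.smul_apply])
        exact ⟨f, hf, fun h' => absurd h' h0⟩
    choose f hf hf0 using this
    refine ⟨Finsupp.onFinset e.support f (fun i hi => ?_), ?_⟩
    · rw [Finsupp.mem_support_iff]; exact fun h' => hi (hf0 i h')
    · ext i
      rw [Finsupp.smul_apply, Finsupp.onFinset_apply]; exact hf i
  r2 e e' e'' he := by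
    classical
    have : ∀ i, ∃ f f' : A, e i = r 0 • f + r 1 • f' ∧ (e i = 0 → f = 0) ∧
        (e i = 0 → f' = 0) := by
      intro i
      by_cases h0 : e i = 0
      · exact ⟨0, 0, by rw [h0, smul_zero, smul_zero, add_zero], fun _ => rfl, fun _ => rfl⟩
      · obtain ⟨f, f', hf⟩ := h.r2 (e i) (e' i) (e'' i) (by
          rw [← Finsupp.smul_apply, he, Finsupp.add_apply, Finsupp.smul_apply, Finsupp.smul_apply])
        exact ⟨f, f', hf, fun h' => absurd h' h0, fun h' => absurd h' h0⟩
    choose f f' hf hf0 hf1 using this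
    refine ⟨Finsupp.onFinset e.support f (fun i hi => ?_),
      Finsupp.onFinset e.support f' (fun i hi => ?_), ?_⟩
    · rw [Finsupp.mem_support_iff]; exact fun h' => hi (hf0 i h')
    · rw [Finsupp.mem_support_iff]; exact fun h' => hi (hf1 i h')
    · ext i
      rw [Finsupp.add_apply, Finsupp.smul_apply, Finsupp.smul_apply, Finsupp.onFinset_apply,
        Finsupp.onFinset_apply]; exact hf i

theorem WR3.projective (h : WR3 r A) [Module.Projective A E] : WR3 r E := by
  obtain ⟨s, hs⟩ := Module.projective_def'.1 (inferInstance : Module.Projective A E)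
  exact (h.finsupp E).of_retract s (Finsupp.linearCombination A id) (fun e => by
    have := congrArg (fun l => l e) hs
    simpa using this)

end

open MvPolynomial in
theorem mem_of_X_sq_mul (s : Set (Fin 3 →₀ ℕ)) (k : Fin 3) (hk : ∀ t ∈ s, t k = 0) (e : S)
    (he : (X k : S) ^ 2 * e ∈ Ideal.span ((fun t => monomial t (1 : ℂ)) '' s)) :
    e ∈ Ideal.span ((fun t => monomial t (1 : ℂ)) '' s) := by
  classical
  rw [mem_ideal_span_monomial_image] at he ⊢
  intro m hm
  have h1 : m + Finsupp.single k 2 ∈ ((X k : S) ^ 2 * e).support := by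
    rw [mem_support_iff, X_pow_eq_monomial, add_comm, coeff_monomial_mul, one_mul]
    exact mem_support_iff.1 hm
  obtain ⟨t, ht, hle⟩ := he _ h1
  refine ⟨t, ht, ?_⟩
  intro j
  by_cases hj : j = k
  · rw [hj, hk t ht]; exact Nat.zero_le _
  · have := hle j
    rw [Finsupp.add_apply, Finsupp.single_apply, if_neg (Ne.symm hj), add_zero] at this
    exact this

open MvPolynomial in
theorem wr3_X_sq : WR3 (fun j : Fin 3 => (X j : S) ^ 2) S where
  r0 e he := by
    rw [smul_eq_mul, mul_eq_zero] at he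
    rcases he with he | he
    · exact absurd (pow_eq_zero_iff (by norm_num) |>.1 he) (X_ne_zero 0)
    · exact he
  r1 e e' he := by
    have h1 := mem_of_X_sq_mul {Finsupp.single 0 2} 1 (by
      intro t ht
      rw [Set.mem_singleton_iff.1 ht, Finsupp.single_apply, if_neg (by decide)]) e (by
      rw [Set.image_singleton, ← X_pow_eq_monomial, Ideal.mem_span_singleton]
      rw [smul_eq_mul, smul_eq_mul] at he
      exact ⟨e', he⟩)
    rw [Set.image_singleton, ← X_pow_eq_monomial, Ideal.mem_span_singleton] at h1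
    exact h1
  r2 e e' e'' he := by
    have h1 := mem_of_X_sq_mul {Finsupp.single 0 2, Finsupp.single 1 2} 2 (by
      intro t ht
      rcases ht with ht | ht
      · rw [ht, Finsupp.single_apply, if_neg (by decide)]
      · rw [Set.mem_singleton_iff.1 ht, Finsupp.single_apply, if_neg (by decide)]) e (by
      rw [Set.image_pair, ← X_pow_eq_monomial, ← X_pow_eq_monomial, Ideal.mem_span_pair]
      simp only [smul_eq_mul] at he
      exact ⟨e', e'', by rw [he]; ring⟩)
    rw [Set.image_pair, ← X_pow_eq_monomial, ← X_pow_eq_monomial, Ideal.mem_span_pair] at h1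
    obtain ⟨a, b, hab⟩ := h1
    exact ⟨a, b, by rw [smul_eq_mul, smul_eq_mul, ← hab]; ring⟩

end Pool.Agent.H29DE
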