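import Pool.Agent.Helper29_DE.ExtVanish

/-!
# Koszul relations and freeness over local rings
-/

open CategoryTheory TensorProduct

noncomputable section

namespace Pool.Agent.H29DE

open Pool.Agent.H66DE

section

variable {R : Type} [CommRing R]

/-- every relation `∑ r_j m_j = 0` is a Koszul relation -/
def KRel (r : Fin 3 → R) (X : Type) [AddCommGroup X] [Module R X] : Prop :=
  ∀ m : Fin 3 → X, r 0 • m 0 + r 1 • m 1 + r 2 • m 2 = 0 →
    ∃ P : Fin 3 → X, m 0 = r 1 • P 2 - r 2 • P 1 ∧ m 1 = r 2 • P 0 - r 0 • P 2 ∧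
      m 2 = r 0 • P 1 - r 1 • P 0

/-- the cross product map -/
def cross (r : Fin 3 → R) : (Fin 3 → R) →ₗ[R] (Fin 3 → R) where
  toFun α := ![r 2 * α 1 - r 1 * α 2, r 0 * α 2 - r 2 * α 0, r 1 * α 0 - r 0 * α 1]
  map_add' α β := by
    ext j; fin_cases j <;> simp <;> ring
  map_smul' c α := by
    ext j; fin_cases j <;> simp <;> ring

theorem krel_of_ext (r : Fin 3 → R) (hr : WR3 r R) (X : Type) [AddCommGroup X] [Module R X]
    (h : Subsingleton (Abelian.Ext (ModuleCat.of R (R ⧸ Ideal.span (Set.range r)))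
      (ModuleCat.of R X) 2)) : KRel r X := by
  intro m hm
  set J := Ideal.span (Set.range r) with hJ
  have hJ1 := ext_one_ideal J (ModuleCat.of R X) h
  have hrJ : ∀ j, r j ∈ J := fun j => Ideal.subset_span ⟨j, rfl⟩
  let g0 : (Fin 3 → R) →ₗ[R] J :=
    { toFun := fun z => ⟨∑ j, z j * r j, Ideal.sum_mem _ fun j _ => Ideal.mul_mem_left _ _ (hrJ j)⟩
      map_add' := fun z w => by
        apply Subtype.ext; simp [add_mul, Finset.sum_add_distrib]
      map_smul' := fun c z => by
        apply Subtype.ext; simp [Finset.mul_sum, mul_assoc] }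
  have hg0 : Function.Surjective g0 := by
    rintro ⟨x, hx⟩
    obtain ⟨c, hc⟩ := (Ideal.mem_span_range_iff_exists_fun).1 hx
    exact ⟨c, Subtype.ext hc⟩
  let p := cross r
  let f0 : ((Fin 3 → R) ⧸ LinearMap.ker p) →ₗ[R] (Fin 3 → R) := (LinearMap.ker p).liftQ p le_rfl
  have hf0 : Function.Injective f0 := by
    rw [← LinearMap.ker_eq_bot]
    exact Submodule.ker_liftQ_eq_bot _ _ _ le_rfl
  have hker : ∀ α : Fin 3 → R, p α = 0 → ∃ k, ∀ j, α j = r j * k := by
    intro α hα
    have h1 := congrFun hα 1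
    have h2 := congrFun hα 2
    simp only [p, cross, LinearMap.coe_mk, AddHom.coe_mk, Matrix.cons_val_one, Matrix.cons_val,
      Pi.zero_apply] at h1 h2
    obtain ⟨k, hk⟩ := hr.koszul1 α (by simpa [sub_eq_zero] using h2)
      (by simpa [sub_eq_zero] using (sub_eq_zero.1 h1).symm)
    exact ⟨k, hk⟩
  have hex : Function.Exact f0 g0 := by
    intro z
    constructor
    · intro hz
      have hz' : ∑ j, z j * r j = 0 := congrArg Subtype.val hz
      rw [Fin.sum_univ_three] at hz'
      obtain ⟨α, h1, h2, h3⟩ := hr.koszul2 (z 2) (z 0) (z 1) (by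
        simp only [smul_eq_mul]; rw [← hz']; ring)
      refine ⟨Submodule.Quotient.mk α, ?_⟩
      change p α = z
      ext j
      fin_cases j
      · simp only [p, cross]; simpa using h2.symm
      · simp only [p, cross]; simpa using h3.symm
      · simp only [p, cross]; simpa using h1.symm
    · rintro ⟨q, rfl⟩
      obtain ⟨α, rfl⟩ := Submodule.Quotient.mk_surjective _ q
      apply Subtype.ext
      change ∑ j, (p α) j * r j = 0
      rw [Fin.sum_univ_three]
      simp only [p, cross, LinearMap.coe_mk, AddHom.coe_mk, Matrix.cons_val_one,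
        Matrix.cons_val, Matrix.cons_val_zero]
      ring
  let q0 : (Fin 3 → R) →ₗ[R] X :=
    { toFun := fun α => ∑ j, α j • m j
      map_add' := fun z w => by simp [add_smul, Finset.sum_add_distrib]
      map_smul' := fun c z => by simp [Finset.smul_sum, mul_smul] }
  have hq0 : LinearMap.ker p ≤ LinearMap.ker q0 := by
    intro α hα
    obtain ⟨k, hk⟩ := hker α hα
    rw [LinearMap.mem_ker]
    change ∑ j, α j • m j = 0
    rw [Fin.sum_univ_three, hk, hk, hk]
    have : (r 0 * k) • m 0 + (r 1 * k) • m 1 + (r 2 * k) • m 2 =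
        k • (r 0 • m 0 + r 1 • m 1 + r 2 • m 2) := by
      simp only [smul_add, smul_smul, mul_comm k]
    rw [this, hm, smul_zero]
  obtain ⟨b, hb⟩ := exists_extend f0 g0 hf0 hg0 hex X hJ1 ((LinearMap.ker p).liftQ q0 hq0)
  have hb' : ∀ α : Fin 3 → R, b (p α) = ∑ j, α j • m j := fun α => hb (Submodule.Quotient.mk α)
  have hbz : ∀ z : Fin 3 → R, b z = ∑ j, z j • b (Pi.single j 1) := by
    intro z
    conv_lhs => rw [← Finset.univ_sum_single z, map_sum]
    refine Finset.sum_congr rfl fun j _ => ?_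
    rw [← map_smul, ← Pi.single_smul, smul_eq_mul, mul_one]
  refine ⟨fun j => b (Pi.single j 1), ?_, ?_, ?_⟩
  · have h1 := hb' (Pi.single 0 1)
    rw [hbz, Fin.sum_univ_three, Fin.sum_univ_three] at h1
    simp only [p, cross, LinearMap.coe_mk, AddHom.coe_mk, Matrix.cons_val_one,
        Matrix.cons_val, Matrix.cons_val_zero] at h1
    simp [Pi.single_apply] at h1
    rw [← h1]; abel
  · have h1 := hb' (Pi.single 1 1)
    rw [hbz, Fin.sum_univ_three, Fin.sum_univ_three] at h1
    simp only [p, cross, LinearMap.coe_mk, AddHom.coe_mk, Matrix.cons_val_one,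
        Matrix.cons_val, Matrix.cons_val_zero] at h1
    simp [Pi.single_apply] at h1
    rw [← h1]; abel
  · have h1 := hb' (Pi.single 2 1)
    rw [hbz, Fin.sum_univ_three, Fin.sum_univ_three] at h1
    simp only [p, cross, LinearMap.coe_mk, AddHom.coe_mk, Matrix.cons_val_one,
        Matrix.cons_val, Matrix.cons_val_zero] at h1
    simp [Pi.single_apply] at h1
    rw [← h1]; abel

/-- local freeness -/
theorem free_of_krel [IsLocalRing R] (r : Fin 3 → R)
    (hr : Ideal.span (Set.range r) = IsLocalRing.maximalIdeal R) (X : Type) [AddCommGroup X]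
    [Module R X] [Module.FinitePresentation R X] (h : KRel r X) : Module.Free R X := by
  apply Module.free_of_maximalIdeal_rTensor_injective
  have hrm : ∀ j, r j ∈ IsLocalRing.maximalIdeal R := fun j => by
    rw [← hr]; exact Ideal.subset_span ⟨j, rfl⟩
  set ρ : Fin 3 → IsLocalRing.maximalIdeal R := fun j => ⟨r j, hrm j⟩ with hρ
  have hρs : ∀ j k, r j • ρ k = r k • ρ j := by
    intro j k
    apply Subtype.ext
    change r j * r k = r k * r j
    ring
  have hgen : ∀ t : (IsLocalRing.maximalIdeal R) ⊗[R] X, ∃ m : Fin 3 → X,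
      t = ∑ j, ρ j ⊗ₜ[R] m j := by
    intro t
    induction t using TensorProduct.induction_on with
    | zero => exact ⟨0, by simp⟩
    | tmul a x =>
      obtain ⟨a, ha⟩ := a
      rw [← hr] at ha
      obtain ⟨c, hc⟩ := (Ideal.mem_span_range_iff_exists_fun).1 ha
      refine ⟨fun j => c j • x, ?_⟩
      have : (⟨a, by rw [← hr]; exact ha⟩ : IsLocalRing.maximalIdeal R) = ∑ j, c j • ρ j := by
        apply Subtype.ext
        rw [AddSubmonoidClass.coe_finsetSum]
        simp only [Submodule.coe_smul, smul_eq_mul, hρ]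
        exact hc.symm
      rw [this, TensorProduct.sum_tmul]
      refine Finset.sum_congr rfl fun j _ => ?_
      rw [TensorProduct.smul_tmul]
    | add t t' h1 h2 =>
      obtain ⟨m, rfl⟩ := h1
      obtain ⟨m', rfl⟩ := h2
      exact ⟨m + m', by simp [TensorProduct.tmul_add, Finset.sum_add_distrib]⟩
  rw [injective_iff_map_eq_zero]
  intro t ht
  obtain ⟨m, rfl⟩ := hgen t
  have h1 : (TensorProduct.lid R X) (LinearMap.rTensor X
      (Submodule.subtype (IsLocalRing.maximalIdeal R)) (∑ j, ρ j ⊗ₜ[R] m j)) = 0 := by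
    rw [ht, map_zero]
  simp only [map_sum, LinearMap.rTensor_tmul, TensorProduct.lid_tmul] at h1
  rw [Fin.sum_univ_three] at h1
  obtain ⟨P, h2, h3, h4⟩ := h m h1
  rw [Fin.sum_univ_three, h2, h3, h4]
  simp only [TensorProduct.tmul_sub, ← TensorProduct.smul_tmul]
  rw [hρs 1 0, hρs 2 0, hρs 2 1]
  abel

end

end Pool.Agent.H29DE
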