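import Pool.Agent.Helper29_DE.Periodic

/-!
# PER
-/

open CategoryTheory

noncomputable section

namespace Pool.Agent.H29DE

open Pool.Agent.H66DE Polynomial

/-- entries -/
def cA : Polynomial S := C (MvPolynomial.X 0)
def cA' : Polynomial S := C (MvPolynomial.X 0 ^ 2)
def cB : Polynomial S := C (MvPolynomial.X 1 + MvPolynomial.X 2)
def cB' : Polynomial S :=
  C (MvPolynomial.X 1 ^ 2 - MvPolynomial.X 1 * MvPolynomial.X 2 + MvPolynomial.X 2 ^ 2)

theorem fR_eq : fR = X * X ^ 3 + cA * cA' + cB * cB' := by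
  simp only [fR, gS, cA, cA', cB, cB', C_add, C_sub, C_mul, C_pow]
  ring

/-- the matrix factorization of `X^4 + g` -/
def mP : Matrix (Fin 4) (Fin 4) (Polynomial S) :=
  !![X, cA, cB, 0;
     -cA', X ^ 3, 0, cB;
     -cB', 0, X ^ 3, -cA;
     0, -cB', cA', X]

/-- the other matrix -/
def mQ : Matrix (Fin 4) (Fin 4) (Polynomial S) :=
  !![X ^ 3, -cA, -cB, 0;
     cA', X, 0, -cB;
     cB', 0, X, cA;
     0, cB', -cA', X ^ 3]

theorem mP_mul_mQ : mP * mQ = fR • (1 : Matrix (Fin 4) (Fin 4) (Polynomial S)) := by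
  ext1 i j
  fin_cases i <;> fin_cases j <;>
    simp [mP, mQ, Matrix.mul_apply, Fin.sum_univ_four, fR_eq] <;> ring

theorem mQ_mul_mP : mQ * mP = fR • (1 : Matrix (Fin 4) (Fin 4) (Polynomial S)) := by
  ext1 i j
  fin_cases i <;> fin_cases j <;>
    simp [mP, mQ, Matrix.mul_apply, Fin.sum_univ_four, fR_eq] <;> ring

theorem fR_ne_zero : fR ≠ 0 := by
  have : fR.Monic := by
    unfold fR
    exact Polynomial.monic_X_pow_add_C _ (by norm_num)
  exact this.ne_zero

/-- exactness over the quotient -/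
theorem mf_exact (A B : Matrix (Fin 4) (Fin 4) (Polynomial S))
    (hAB : A * B = fR • (1 : Matrix (Fin 4) (Fin 4) (Polynomial S)))
    (hBA : B * A = fR • (1 : Matrix (Fin 4) (Fin 4) (Polynomial S))) (z : Fin 4 → R0) :
    Matrix.vecMul z (A.map (AdjoinRoot.mk fR)) = 0 ↔
      ∃ w, z = Matrix.vecMul w (B.map (AdjoinRoot.mk fR)) := by
  constructor
  · intro hz
    choose z' hz' using fun i => AdjoinRoot.mk_surjective (z i)
    have h1 : ∀ j, ∃ w : Polynomial S, (Matrix.vecMul z' A) j = fR * w := by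
      intro j
      have h2 : AdjoinRoot.mk fR ((Matrix.vecMul z' A) j) = 0 := by
        have h3 := congrFun hz j
        simp only [Matrix.vecMul, dotProduct, Matrix.map_apply, Pi.zero_apply] at h3 ⊢
        rw [map_sum, ← h3]
        refine Finset.sum_congr rfl fun i _ => ?_
        rw [map_mul, hz']
      exact AdjoinRoot.mk_eq_zero.1 h2
    choose w hw using h1
    refine ⟨fun j => AdjoinRoot.mk fR (w j), ?_⟩
    have h4 : Matrix.vecMul z' A = fR • w := funext hw
    have h5 : fR • z' = fR • Matrix.vecMul w B := by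
      rw [← Matrix.smul_vecMul, ← h4, Matrix.vecMul_vecMul, hAB, Matrix.vecMul_smul,
        Matrix.vecMul_one]
    have h6 : z' = Matrix.vecMul w B := smul_right_injective _ fR_ne_zero h5
    funext j
    rw [← hz' j, h6]
    simp only [Matrix.vecMul, dotProduct, Matrix.map_apply, map_sum, map_mul]
  · rintro ⟨w, rfl⟩
    rw [Matrix.vecMul_vecMul, ← Matrix.map_mul, hBA]
    have : (fR • (1 : Matrix (Fin 4) (Fin 4) (Polynomial S))).map (AdjoinRoot.mk fR) = 0 := by
      ext i j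
      simp
    rw [this, Matrix.vecMul_zero]

/-- the curve `(t^3, -t^4, 0, 0)` -/
def tauS : S →+* Polynomial ℂ :=
  (MvPolynomial.aeval ![-(X : Polynomial ℂ) ^ 4, 0, 0] : S →ₐ[ℂ] Polynomial ℂ).toRingHom

theorem tauS_X (j : Fin 3) : tauS (MvPolynomial.X j) = ![-(X : Polynomial ℂ) ^ 4, 0, 0] j := by
  simp [tauS]

def tau : R0 →+* Polynomial ℂ :=
  AdjoinRoot.lift tauS (X ^ 3) (by
    rw [fR, Polynomial.eval₂_add, Polynomial.eval₂_X_pow, Polynomial.eval₂_C, gS, map_add,
      map_add, map_pow, map_pow, map_pow, tauS_X, tauS_X, tauS_X]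
    simp
    ring)

theorem tau_mk (p : Polynomial S) : tau (AdjoinRoot.mk fR p) = p.eval₂ tauS (X ^ 3) := by
  simp [tau]

theorem tau_mQ_zero (i j : Fin 4) :
    (tau (AdjoinRoot.mk fR (mQ i j))).eval 0 = 0 := by
  rw [tau_mk]
  have h0 : tauS (MvPolynomial.X 0) = -(X : Polynomial ℂ) ^ 4 := tauS_X 0
  have h1 : tauS (MvPolynomial.X 1) = 0 := tauS_X 1
  have h2 : tauS (MvPolynomial.X 2) = 0 := tauS_X 2
  have hA : Polynomial.eval 0 (cA.eval₂ tauS (X ^ 3)) = 0 := by
    rw [cA, Polynomial.eval₂_C, h0]; simp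
  have hA' : Polynomial.eval 0 (cA'.eval₂ tauS (X ^ 3)) = 0 := by
    rw [cA', Polynomial.eval₂_C, map_pow, h0]; simp
  have hB : Polynomial.eval 0 (cB.eval₂ tauS (X ^ 3)) = 0 := by
    rw [cB, Polynomial.eval₂_C, map_add, h1, h2]; simp
  have hB' : Polynomial.eval 0 (cB'.eval₂ tauS (X ^ 3)) = 0 := by
    rw [cB', Polynomial.eval₂_C, map_add, map_sub, map_mul, map_pow, map_pow, h1, h2]; simp
  fin_cases i <;> fin_cases j <;> simp [mQ, hA, hA', hB, hB']

theorem mQ_nonsplit (W : Matrix (Fin 4) (Fin 4) R0) :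
    (mQ.map (AdjoinRoot.mk fR)) * (W * (mQ.map (AdjoinRoot.mk fR))) ≠
      mQ.map (AdjoinRoot.mk fR) := by
  intro h
  set Q1 : Matrix (Fin 4) (Fin 4) (Polynomial ℂ) := (mQ.map (AdjoinRoot.mk fR)).map tau with hQ1
  set W1 : Matrix (Fin 4) (Fin 4) (Polynomial ℂ) := W.map tau with hW1
  have h1 : Q1 * (W1 * Q1) = Q1 := by
    have := congrArg (fun M => Matrix.map M tau) h
    simpa only [Matrix.map_mul] using this
  have h2 : (1 - Q1 * W1) * Q1 = 0 := by
    rw [sub_mul, one_mul, mul_assoc, h1, sub_self]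
  have h3 : (1 - Q1 * W1).det • Q1 = 0 := by
    have := congrArg (fun M => (1 - Q1 * W1).adjugate * M) h2
    simp only [← mul_assoc, Matrix.adjugate_mul, mul_zero] at this
    simpa using this
  have h4 : (1 - Q1 * W1).det.eval 0 = 1 := by
    have h5 : ((1 - Q1 * W1).map (Polynomial.evalRingHom (0 : ℂ))) = 1 := by
      have h6 : Q1.map (Polynomial.evalRingHom (0 : ℂ)) = 0 := by
        ext i j
        exact tau_mQ_zero i j
      rw [Matrix.map_sub _ (fun a b => map_sub _ a b), Matrix.map_mul, h6, zero_mul, sub_zero]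
      simp
    have h7 := (RingHom.map_det (Polynomial.evalRingHom (0 : ℂ)) (1 - Q1 * W1))
    rw [RingHom.mapMatrix_apply, h5, Matrix.det_one] at h7
    exact h7
  have h5 : (1 - Q1 * W1).det ≠ 0 := by
    intro h6
    rw [h6] at h4
    simp at h4
  have h6 : (1 - Q1 * W1).det * Q1 1 1 = 0 := congrFun (congrFun h3 1) 1
  rcases mul_eq_zero.1 h6 with h7 | h7
  · exact h5 h7
  · have h8 : Q1 1 1 = X ^ 3 := by
      change tau (AdjoinRoot.mk fR (mQ 1 1)) = _
      rw [tau_mk]
      simp [mQ]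
    rw [h8] at h7
    exact pow_ne_zero 3 Polynomial.X_ne_zero h7

theorem per : PerStatement := by
  intro Λ _ _ _ e
  set φ : R0 →+* Λ := (e.symm : R0 →+* Λ) with hφ
  set ψ : Λ →+* R0 := (e : Λ →+* R0) with hψ
  have hφψ : ∀ x, φ (ψ x) = x := fun x => e.symm_apply_apply x
  have hψφ : ∀ x, ψ (φ x) = x := fun x => e.apply_symm_apply x
  have key : ∀ (A : Matrix (Fin 4) (Fin 4) R0) (z w : Fin 4 → Λ),
      w = Matrix.vecMul z (A.map φ) ↔ (ψ ∘ w) = Matrix.vecMul (ψ ∘ z) A := by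
    intro A z w
    constructor
    · rintro rfl
      funext j
      simp only [Matrix.vecMul, dotProduct, Function.comp_apply, Matrix.map_apply, map_sum,
        map_mul, hψφ]
    · intro h
      funext j
      have h1 := congrArg φ (congrFun h j)
      simp only [Matrix.vecMul, dotProduct, Function.comp_apply, map_sum,
        map_mul, hφψ] at h1
      rw [h1]
      simp only [Matrix.vecMul, dotProduct, Matrix.map_apply]
  have hex : ∀ (A B : Matrix (Fin 4) (Fin 4) (Polynomial S)),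
      (A * B = fR • (1 : Matrix (Fin 4) (Fin 4) (Polynomial S))) →
      (B * A = fR • (1 : Matrix (Fin 4) (Fin 4) (Polynomial S))) → ∀ z : Fin 4 → Λ,
      Matrix.vecMul z ((A.map (AdjoinRoot.mk fR)).map φ) = 0 ↔
      ∃ w, z = Matrix.vecMul w ((B.map (AdjoinRoot.mk fR)).map φ) := by
    intro A B hAB hBA z
    have h1 : Matrix.vecMul z ((A.map (AdjoinRoot.mk fR)).map φ) = 0 ↔
        Matrix.vecMul (ψ ∘ z) (A.map (AdjoinRoot.mk fR)) = 0 := by
      rw [eq_comm, key, eq_comm]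
      have : ψ ∘ (0 : Fin 4 → Λ) = 0 := by funext j; simp
      rw [this]
    rw [h1, mf_exact A B hAB hBA]
    constructor
    · rintro ⟨w, hw⟩
      refine ⟨φ ∘ w, (key _ _ _).2 ?_⟩
      have : ψ ∘ φ ∘ w = w := by funext j; simp [hψφ]
      rw [this]; exact hw
    · rintro ⟨w, hw⟩
      exact ⟨ψ ∘ w, (key _ _ _).1 hw⟩
  refine per_of_matrices ((mP.map (AdjoinRoot.mk fR)).map φ) ((mQ.map (AdjoinRoot.mk fR)).map φ)
    (hex mP mQ mP_mul_mQ mQ_mul_mP) (hex mQ mP mQ_mul_mP mP_mul_mQ) ?_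
  intro W hW
  apply mQ_nonsplit (W.map ψ)
  have h1 := congrArg (fun M => Matrix.map M ψ) hW
  simp only [Matrix.map_mul] at h1
  have h2 : ∀ A : Matrix (Fin 4) (Fin 4) R0, (A.map φ).map ψ = A := by
    intro A
    ext i j
    simp [hψφ]
  rw [h2] at h1
  exact h1

end Pool.Agent.H29DE
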