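import Pool.Agent.Helper66_DE.Statements

/-!
# Periodic resolutions have unbounded Ext
-/

open CategoryTheory CategoryTheory.Limits

noncomputable section

namespace Pool.Agent.H29DE

section Abstract

variable {C : Type 1} [Category.{0} C] [Abelian C] [HasExt.{1} C]

theorem shift_ne {S : ShortComplex C} (hS : S.ShortExact) [Projective S.X₂] (Y : C) (n : ℕ)
    (a : Abelian.Ext.{1} S.X₁ Y (n + 1)) (ha : a ≠ 0) :
    hS.extClass.comp a (show 1 + (n + 1) = n + 2 by omega) ≠ 0 := by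
  intro h
  obtain ⟨x, hx⟩ := Abelian.Ext.contravariant_sequence_exact₁ hS Y a
    (show 1 + (n + 1) = n + 2 by omega) h
  apply ha
  rw [← hx, Abelian.Ext.eq_zero_of_projective x, Abelian.Ext.comp_zero]

theorem extClass_ne {S : ShortComplex C} (hS : S.ShortExact)
    (h : ∀ ρ : S.X₂ ⟶ S.X₁, S.f ≫ ρ ≠ 𝟙 _) : hS.extClass ≠ 0 := by
  intro h0
  obtain ⟨x, hx⟩ := Abelian.Ext.contravariant_sequence_exact₁ hS S.X₁
    (Abelian.Ext.mk₀ (𝟙 S.X₁)) (n₁ := 1) rfl (by rw [h0, Abelian.Ext.zero_comp])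
  obtain ⟨ρ, rfl⟩ := (Abelian.Ext.mk₀_bijective _ _).2 x
  rw [Abelian.Ext.mk₀_comp_mk₀] at hx
  exact h ρ ((Abelian.Ext.mk₀_bijective _ _).1 hx)

theorem periodic_ext {A B L L' : C} {f : A ⟶ L} {g : L ⟶ B} {f' : B ⟶ L'} {g' : L' ⟶ A}
    (w : f ≫ g = 0) (w' : f' ≫ g' = 0) (hS : (ShortComplex.mk f g w).ShortExact)
    (hS' : (ShortComplex.mk f' g' w').ShortExact) [Projective L] [Projective L']
    (h : ∀ ρ : L ⟶ A, f ≫ ρ ≠ 𝟙 _) (N : ℕ) :
    ∃ a : Abelian.Ext.{1} B A (2 * N + 1), a ≠ 0 := by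
  induction N with
  | zero => exact ⟨hS.extClass, extClass_ne hS h⟩
  | succ N ih =>
    obtain ⟨a, ha⟩ := ih
    have : Projective (ShortComplex.mk f g w).X₂ := inferInstanceAs (Projective L)
    have : Projective (ShortComplex.mk f' g' w').X₂ := inferInstanceAs (Projective L')
    have h1 := shift_ne hS' A (2 * N) a ha
    have h2 := shift_ne hS A (2 * N + 1) _ h1
    exact ⟨_, h2⟩

end Abstract

section FG

variable {Λ : Type} [Ring Λ] [IsNoetherianRing Λ]

theorem fg_surjective {X Y : FGModuleCat.{0} Λ} (f : X ⟶ Y) [Epi f] :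
    Function.Surjective f.hom.hom := by
  have : Epi ((forget₂ (FGModuleCat.{0} Λ) (ModuleCat.{0} Λ)).map f) := inferInstance
  exact (ModuleCat.epi_iff_surjective _).1 this

theorem fg_projective (V : Type) [AddCommGroup V] [Module Λ V] [Module.Finite Λ V]
    [Module.Projective Λ V] : Projective (FGModuleCat.of Λ V) where
  factors {E X} f e _ := by
    obtain ⟨h, hh⟩ := Module.projective_lifting_property e.hom.hom f.hom.hom (fg_surjective e)
    refine ⟨⟨ModuleCat.ofHom h⟩, ?_⟩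
    ext x
    exact LinearMap.congr_fun hh x

theorem fg_shortExact {A L B : Type} [AddCommGroup A] [Module Λ A] [Module.Finite Λ A]
    [AddCommGroup L] [Module Λ L] [Module.Finite Λ L] [AddCommGroup B] [Module Λ B]
    [Module.Finite Λ B] (f : A →ₗ[Λ] L) (g : L →ₗ[Λ] B) (hf : Function.Injective f)
    (hg : Function.Surjective g) (hfg : Function.Exact f g)
    (w : FGModuleCat.ofHom f ≫ FGModuleCat.ofHom g = 0) :
    (ShortComplex.mk (FGModuleCat.ofHom f) (FGModuleCat.ofHom g) w).ShortExact := by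
  have hS : ((ShortComplex.mk (FGModuleCat.ofHom f) (FGModuleCat.ofHom g) w).map
      (forget₂ (FGModuleCat.{0} Λ) (ModuleCat.{0} Λ))).ShortExact :=
    ModuleCat.shortComplex_shortExact _ hfg hf hg
  have hm := hS.mono_f
  have he := hS.epi_g
  exact
    { exact := (ShortComplex.exact_map_iff_of_faithful _
        (forget₂ (FGModuleCat.{0} Λ) (ModuleCat.{0} Λ))).1 hS.exact
      mono_f := (forget₂ (FGModuleCat.{0} Λ) (ModuleCat.{0} Λ)).mono_of_mono_map hm
      epi_g := (forget₂ (FGModuleCat.{0} Λ) (ModuleCat.{0} Λ)).epi_of_epi_map he }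

/-- matrices over a ring with periodic exactness give unbounded `Ext` -/
theorem per_of_matrices [HasExt.{1} (FGModuleCat.{0} Λ)] (P Q : Matrix (Fin 4) (Fin 4) Λ)
    (hPQ : ∀ z : Fin 4 → Λ, Matrix.vecMul z P = 0 ↔ ∃ w, z = Matrix.vecMul w Q)
    (hQP : ∀ z : Fin 4 → Λ, Matrix.vecMul z Q = 0 ↔ ∃ w, z = Matrix.vecMul w P)
    (hns : ∀ W : Matrix (Fin 4) (Fin 4) Λ, Q * (W * Q) ≠ Q) :
    ∃ X X' : FGModuleCat Λ, ∀ N : ℕ, ∃ n : ℕ, N ≤ n ∧ ¬ Subsingleton (Abelian.Ext.{1} X X' n) := by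
  let p : (Fin 4 → Λ) →ₗ[Λ] (Fin 4 → Λ) := Matrix.vecMulLinear P
  let q : (Fin 4 → Λ) →ₗ[Λ] (Fin 4 → Λ) := Matrix.vecMulLinear Q
  have hp : ∀ z, p z = Matrix.vecMul z P := fun z => rfl
  have hq : ∀ z, q z = Matrix.vecMul z Q := fun z => rfl
  have : Module.Finite Λ (LinearMap.range p) := inferInstance
  have : Module.Finite Λ (LinearMap.range q) := inferInstance
  have ex1 : Function.Exact (LinearMap.range q).subtype p.rangeRestrict := by
    intro z
    rw [← Submodule.coe_eq_zero, LinearMap.codRestrict_apply, hp, hPQ]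
    constructor
    · rintro ⟨w, rfl⟩
      exact ⟨⟨_, w, rfl⟩, rfl⟩
    · rintro ⟨⟨_, w, rfl⟩, rfl⟩
      exact ⟨w, rfl⟩
  have ex2 : Function.Exact (LinearMap.range p).subtype q.rangeRestrict := by
    intro z
    rw [← Submodule.coe_eq_zero, LinearMap.codRestrict_apply, hq, hQP]
    constructor
    · rintro ⟨w, rfl⟩
      exact ⟨⟨_, w, rfl⟩, rfl⟩
    · rintro ⟨⟨_, w, rfl⟩, rfl⟩
      exact ⟨w, rfl⟩
  have w1 : FGModuleCat.ofHom (LinearMap.range q).subtype ≫ FGModuleCat.ofHom p.rangeRestrict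
      = 0 := by
    apply FGModuleCat.hom_ext
    apply LinearMap.ext
    intro x
    exact (ex1 _).2 ⟨x, rfl⟩
  have w2 : FGModuleCat.ofHom (LinearMap.range p).subtype ≫ FGModuleCat.ofHom q.rangeRestrict
      = 0 := by
    apply FGModuleCat.hom_ext
    apply LinearMap.ext
    intro x
    exact (ex2 _).2 ⟨x, rfl⟩
  have hS := fg_shortExact _ _ (Submodule.injective_subtype _) p.surjective_rangeRestrict ex1 w1
  have hS' := fg_shortExact _ _ (Submodule.injective_subtype _) q.surjective_rangeRestrict ex2 w2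
  have hL : Projective (FGModuleCat.of Λ (Fin 4 → Λ)) := fg_projective _
  refine ⟨FGModuleCat.of Λ (LinearMap.range p), FGModuleCat.of Λ (LinearMap.range q),
    fun N => ⟨2 * N + 1, by omega, ?_⟩⟩
  have hper := periodic_ext w1 w2 hS hS' (fun ρ hρ => ?_) N
  · obtain ⟨a, ha⟩ := hper
    exact fun hsub => ha (hsub.elim _ _)
  · -- a retraction gives a matrix `W` with `Q W Q = Q`
    have hρ1 : ∀ v : LinearMap.range q, ρ.hom.hom (v : Fin 4 → Λ) = v := fun v =>
      congrArg (fun l => l.hom.hom v) hρ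
    have hch : ∀ i : Fin 4, ∃ w : Fin 4 → Λ, q w = (ρ.hom.hom (Pi.single i 1) : LinearMap.range q).1 :=
      fun i => (ρ.hom.hom (Pi.single i 1) : LinearMap.range q).2
    choose W hW using hch
    apply hns (Matrix.of W)
    have h1 : ∀ z : Fin 4 → Λ, (ρ.hom.hom z : LinearMap.range q).1 =
        Matrix.vecMul z (Matrix.of W * Q) := by
      intro z
      conv_lhs => rw [← Finset.univ_sum_single z]
      have : ∀ i, (Pi.single i (z i) : Fin 4 → Λ) = z i • Pi.single i 1 := by
        intro i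
        rw [← Pi.single_smul, smul_eq_mul, mul_one]
      simp only [this, map_sum, map_smul, AddSubmonoidClass.coe_finsetSum, Submodule.coe_smul]
      rw [← Matrix.vecMul_vecMul]
      ext j
      simp only [← hW, hq, Finset.sum_apply, Pi.smul_apply, smul_eq_mul, Matrix.vecMul,
        dotProduct, Matrix.of_apply, Finset.sum_mul, Finset.mul_sum]
      rw [Finset.sum_comm]
      simp only [mul_assoc]
    ext i j
    have h2 := hρ1 ⟨q (Pi.single i 1), _, rfl⟩
    have h3 := congrArg Subtype.val h2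
    rw [h1] at h3
    have h4 := congrFun h3 j
    simp only [hq, Matrix.vecMul_vecMul, Matrix.single_one_vecMul] at h4
    exact h4

end FG

end Pool.Agent.H29DE
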