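import Pool.Agent.Helper29_DE.Koszul

/-!
# RIGID
-/

noncomputable section

namespace Pool.Agent.H29DE

open Pool.Agent.H66DE

theorem WR3.pi {A : Type} [CommRing A] {r : Fin 3 → A} {E : Type} [AddCommGroup E] [Module A E]
    (h : WR3 r E) (ι : Type) : WR3 r (ι → E) where
  r0 e he := by
    funext i
    exact h.r0 _ (congrFun he i)
  r1 e e' he := by
    choose f hf using fun i => h.r1 (e i) (e' i) (congrFun he i)
    exact ⟨f, funext hf⟩
  r2 e e' e'' he := by
    choose f f' hf using fun i => h.r2 (e i) (e' i) (e'' i) (congrFun he i)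
    exact ⟨f, f', funext hf⟩

theorem WR3.moduleEnd {A : Type} [CommRing A] {r : Fin 3 → A} (h : WR3 r A)
    (N : Type) [AddCommGroup N] [Module A N] [Module.Finite A N] [Module.Projective A N] :
    WR3 r (Module.End A N) := by
  obtain ⟨n, π, hπ⟩ := Module.Finite.exists_fin' A N
  obtain ⟨s, hs⟩ := Module.projective_lifting_property π LinearMap.id hπ
  have hN : WR3 r (Fin n → N) := WR3.pi h.projective (Fin n)
  refine hN.of_retract
    { toFun := fun f i => f (π (Pi.single i 1))
      map_add' := fun _ _ => rfl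
      map_smul' := fun _ _ => rfl }
    { toFun := fun v =>
        { toFun := fun x => ∑ i, s x i • v i
          map_add' := fun x y => by
            simp only [map_add, Pi.add_apply, add_smul, Finset.sum_add_distrib]
          map_smul' := fun c x => by
            simp only [map_smul, Pi.smul_apply, smul_eq_mul, mul_smul, Finset.smul_sum,
              RingHom.id_apply] }
      map_add' := fun v w => by
        ext x
        simp [Finset.sum_add_distrib]
      map_smul' := fun c v => by
        ext x
        simp [Finset.smul_sum, smul_comm c] } ?_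
  intro f
  ext x
  change ∑ i, s x i • f (π (Pi.single i 1)) = f x
  have h1 : x = π (s x) := (LinearMap.congr_fun hs x).symm
  conv_rhs => rw [h1, ← Finset.univ_sum_single (s x), map_sum, map_sum]
  refine Finset.sum_congr rfl fun i _ => ?_
  rw [← map_smul, ← map_smul, ← Pi.single_smul, smul_eq_mul, mul_one]

theorem rigid (hann : AnnStatement) : RigidStatement := by
  intro N _ _ _ _ φ hφ hE h hh
  have h1 := hann N φ hφ 1 (one_pow 4) h hh
  choose u hu using h1
  set r : Fin 3 → S := fun j => (MvPolynomial.X j : S) ^ 2 with hr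
  have hur : ∀ j, aOp 1 φ (u j) = r j • h := hu
  have wE : WR3 r (LinearMap.ker (aOp 1 φ)) := wr3_X_sq.projective
  have wM : WR3 r (Module.End S N) := wr3_X_sq.moduleEnd N
  have hker : ∀ j k, r k • u j - r j • u k ∈ LinearMap.ker (aOp 1 φ) := by
    intro j k
    rw [LinearMap.mem_ker, map_sub, map_smul, map_smul, hur, hur, smul_comm, sub_self]
  obtain ⟨α, ha, -, hc⟩ := wE.koszul2 ⟨_, hker 0 1⟩ ⟨_, hker 1 2⟩ ⟨_, hker 2 0⟩ (by
    apply Subtype.ext
    simp only [Submodule.coe_add, Submodule.coe_smul, Submodule.coe_zero, smul_sub, smul_smul]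
    rw [mul_comm (r 1) (r 0), mul_comm (r 2) (r 0), mul_comm (r 2) (r 1)]
    abel)
  have ha' : r 1 • u 0 - r 0 • u 1 =
      r 1 • (α 0 : Module.End S N) - r 0 • (α 1 : Module.End S N) := congrArg Subtype.val ha
  have hc' : r 0 • u 2 - r 2 • u 0 =
      r 0 • (α 2 : Module.End S N) - r 2 • (α 0 : Module.End S N) := congrArg Subtype.val hc
  obtain ⟨k, hk⟩ := wM.koszul1 (fun j => u j - (α j : Module.End S N))
    (by
      simp only [smul_sub]
      rw [← sub_eq_zero] at ha' ⊢
      rw [← ha']; abel)
    (by
      simp only [smul_sub]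
      rw [← sub_eq_zero] at hc' ⊢
      rw [← neg_eq_zero, ← hc']; abel)
  refine ⟨k, ?_⟩
  have h2 : r 0 • (aOp 1 φ k - h) = 0 := by
    rw [smul_sub, ← map_smul, ← hk 0, map_sub, hur, LinearMap.mem_ker.1 (α 0).2, sub_zero, sub_self]
  exact sub_eq_zero.1 (wM.r0 _ h2)

end Pool.Agent.H29DE
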